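import Mathlib

/-!
Addressings of graphs and Johnson graphs: the definitions used for MP_38fdd6_co, and the distance
in a Johnson graph.
-/

set_option autoImplicit false

namespace Pool.Agent.Addr

/-- The number of coordinates in which one word has `0` and the other has `1`; `none` plays the
role of the star. -/
def delta {t : ℕ} (a b : Fin t → Option Bool) : ℕ :=
  (Finset.univ.filter fun i => ∃ c : Bool, a i = some c ∧ b i = some (!c)).card

/-- The graph `G` has an addressing of length `t`. -/
def HasAddressing {V : Type} (G : SimpleGraph V) (t : ℕ) : Prop :=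
  ∃ f : V → Fin t → Option Bool, ∀ u v : V, delta (f u) (f v) = G.dist u v

/-- The addressing number: the least length of an addressing. -/
noncomputable def addressingNumber {V : Type} (G : SimpleGraph V) : ℕ :=
  sInf {t : ℕ | HasAddressing G t}

/-- The vertices of the Johnson graph `J(n,m)`: the `m`-element subsets of an `n`-element set. -/
abbrev Sub (n m : ℕ) : Type := {A : Finset (Fin n) // A.card = m}

/-- The Johnson graph `J(n,m)`. -/
def johnson (n m : ℕ) : SimpleGraph (Sub n m) where
  Adj A B := (A.1 ∩ B.1).card + 1 = m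
  symm := ⟨fun A B h => by rwa [Finset.inter_comm]⟩
  loopless := ⟨fun A h => by
    rw [Finset.inter_self, A.2] at h
    omega⟩

variable {n m : ℕ}

lemma card_sdiff_add (A B : Sub n m) : (A.1 \ B.1).card + (A.1 ∩ B.1).card = m := by
  rw [Finset.card_sdiff_add_card_inter, A.2]

lemma sdiff_comm_card (A B : Sub n m) : (A.1 \ B.1).card = (B.1 \ A.1).card := by
  have h1 := card_sdiff_add A B
  have h2 := card_sdiff_add B A
  rw [Finset.inter_comm] at h2
  omega

lemma adj_iff (A B : Sub n m) : (johnson n m).Adj A B ↔ (A.1 \ B.1).card = 1 := by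
  have h1 := card_sdiff_add A B
  show (A.1 ∩ B.1).card + 1 = m ↔ _
  omega

lemma sdiff_triangle (A B C : Finset (Fin n)) :
    (A \ C).card ≤ (A \ B).card + (B \ C).card := by
  calc (A \ C).card ≤ ((A \ B) ∪ (B \ C)).card := by
        apply Finset.card_le_card
        intro x hx
        simp only [Finset.mem_sdiff, Finset.mem_union] at hx ⊢
        by_cases hB : x ∈ B
        · exact Or.inr ⟨hB, hx.2⟩
        · exact Or.inl ⟨hx.1, hB⟩
    _ ≤ _ := Finset.card_union_le _ _

lemma le_walk (A B : Sub n m) (w : (johnson n m).Walk A B) : (A.1 \ B.1).card ≤ w.length := by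
  induction w with
  | nil => simp
  | cons h p ih =>
    rename_i u v w
    rw [SimpleGraph.Walk.length_cons]
    have h1 := (adj_iff _ _).mp h
    have h2 := sdiff_triangle u.1 v.1 w.1
    omega

lemma exists_walk (k : ℕ) : ∀ (A B : Sub n m), (A.1 \ B.1).card = k →
    ∃ w : (johnson n m).Walk A B, w.length = k := by
  induction k with
  | zero =>
    intro A B h
    have hAB : A = B := by
      apply Subtype.ext
      apply Finset.eq_of_subset_of_card_le
      · rw [← Finset.sdiff_eq_empty_iff_subset]
        exact Finset.card_eq_zero.mp h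
      · rw [A.2, B.2]
    subst hAB
    exact ⟨SimpleGraph.Walk.nil, rfl⟩
  | succ k ih =>
    intro A B h
    have h' : (B.1 \ A.1).card = k + 1 := by rw [← sdiff_comm_card, h]
    obtain ⟨a, ha⟩ : (A.1 \ B.1).Nonempty := by
      rw [← Finset.card_pos]; omega
    obtain ⟨b, hb⟩ : (B.1 \ A.1).Nonempty := by
      rw [← Finset.card_pos]; omega
    rw [Finset.mem_sdiff] at ha hb
    have hba : b ∉ A.1.erase a := fun hh => hb.2 (Finset.mem_of_mem_erase hh)
    have hcard : (insert b (A.1.erase a)).card = m := by
      rw [Finset.card_insert_of_notMem hba, Finset.card_erase_of_mem ha.1, A.2]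
      have : 0 < A.1.card := Finset.card_pos.mpr ⟨a, ha.1⟩
      have h3 := A.2
      omega
    let A' : Sub n m := ⟨insert b (A.1.erase a), hcard⟩
    have hadj : (johnson n m).Adj A A' := by
      rw [adj_iff]
      have : A.1 \ A'.1 = {a} := by
        ext x
        simp only [A', Finset.mem_sdiff, Finset.mem_insert, Finset.mem_erase, Finset.mem_singleton]
        constructor
        · rintro ⟨h1, h2⟩
          by_contra hx
          exact h2 (Or.inr ⟨hx, h1⟩)
        · rintro rfl
          refine ⟨ha.1, ?_⟩
          rintro (h1 | h1)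
          · exact hb.2 (h1 ▸ ha.1)
          · exact h1.1 rfl
      rw [this, Finset.card_singleton]
    have hk : (A'.1 \ B.1).card = k := by
      have : A'.1 \ B.1 = (A.1 \ B.1).erase a := by
        ext x
        simp only [A', Finset.mem_sdiff, Finset.mem_insert, Finset.mem_erase]
        constructor
        · rintro ⟨h1 | h1, h2⟩
          · exact absurd (h1 ▸ hb.1) h2
          · exact ⟨h1.1, h1.2, h2⟩
        · rintro ⟨h1, h2, h3⟩
          exact ⟨Or.inr ⟨h1, h2⟩, h3⟩
      rw [this, Finset.card_erase_of_mem (Finset.mem_sdiff.mpr ha), h]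
      omega
    obtain ⟨w, hw⟩ := ih A' B hk
    exact ⟨SimpleGraph.Walk.cons hadj w, by rw [SimpleGraph.Walk.length_cons, hw]⟩

/-- The distance in the Johnson graph. -/
theorem dist_eq (A B : Sub n m) : (johnson n m).dist A B = (A.1 \ B.1).card := by
  obtain ⟨w, hw⟩ := exists_walk _ A B rfl
  apply le_antisymm
  · rw [← hw]
    exact SimpleGraph.dist_le w
  · obtain ⟨p, hp⟩ := (w.reachable).exists_walk_length_eq_dist
    rw [← hp]
    exact le_walk A B p

/-- Adding unused coordinates. -/
lemma HasAddressing.mono {V : Type} {G : SimpleGraph V} {s t : ℕ} (h : HasAddressing G s)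
    (hst : s ≤ t) : HasAddressing G t := by
  obtain ⟨f, hf⟩ := h
  refine ⟨fun v i => if hi : i.1 < s then f v ⟨i.1, hi⟩ else none, fun u v => ?_⟩
  rw [← hf u v]
  unfold delta
  symm
  apply Finset.card_bij (fun (i : Fin s) _ => (⟨i.1, lt_of_lt_of_le i.2 hst⟩ : Fin t))
  · intro i hi
    rw [Finset.mem_filter] at hi ⊢
    refine ⟨Finset.mem_univ _, ?_⟩
    obtain ⟨c, h1, h2⟩ := hi.2
    refine ⟨c, ?_, ?_⟩
    · simp [h1]
    · simp [h2]
  · intro i _ j _ hij
    have := congrArg Fin.val hij
    exact Fin.ext this
  · intro i hi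
    rw [Finset.mem_filter] at hi
    obtain ⟨c, h1, h2⟩ := hi.2
    have his : i.1 < s := by
      by_contra hh
      simp [hh] at h1
    refine ⟨⟨i.1, his⟩, ?_, Fin.ext rfl⟩
    rw [Finset.mem_filter]
    refine ⟨Finset.mem_univ _, c, ?_, ?_⟩
    · simpa [his] using h1
    · simpa [his] using h2

end Pool.Agent.Addr
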